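import Pool.Agent.R956.X2

/-!
Self-avoiding walks on the honeycomb lattice: comparison of consecutive lengths for the number of
walks and the mean-square displacement, and sparse sets of lengths of any parities.
-/

set_option autoImplicit false

namespace Pool.Agent.Results.MP_b440f6_pr.BothParities

open Filter Topology

/-- Adjacency in the honeycomb lattice (brick-wall model), as in the frozen statement. -/
def Nbr (p q : ℤ × ℤ) : Prop :=
  (p.2 = q.2 ∧ (p.1 - q.1 = 1 ∨ q.1 - p.1 = 1)) ∨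
    (p.1 = q.1 ∧ ((q.2 = p.2 + 1 ∧ Even (p.1 + p.2)) ∨ (p.2 = q.2 + 1 ∧ Even (q.1 + q.2))))

/-- The set of `n`-step self-avoiding walks from the origin. -/
def walks (n : ℕ) : Set (Fin (n + 1) → ℤ × ℤ) :=
  {ω | ω 0 = (0, 0) ∧ Function.Injective ω ∧ ∀ i : Fin n, Nbr (ω i.castSucc) (ω i.succ)}

/-- The number of `n`-step self-avoiding walks from the origin. -/
noncomputable def c (n : ℕ) : ℕ := (walks n).ncard

/-- The connective constant. -/
noncomputable def μ : ℝ := √(2 + √2)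

/-- The vertex of the regular honeycomb lattice with edge length `1` in the plane, the origin at `0`,
which has the brick-wall coordinates `p`. -/
noncomputable def pos (p : ℤ × ℤ) : ℂ :=
  ⟨√3 / 2 * p.1, (3 * p.2 - ((p.1 + p.2) % 2 : ℤ)) / 2⟩

/-- The mean-square displacement of the `n`-step self-avoiding walk. -/
noncomputable def D (n : ℕ) : ℝ :=
  (∑ᶠ ω ∈ walks n, ‖pos (ω (Fin.last n))‖ ^ 2) / (c n : ℝ)

theorem nbr_iff (p q : ℤ × ℤ) : Nbr p q ↔ TH966.AK.Hex.A p q := by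
  rw [TH966.AK.Hex.A_iff]
  unfold Nbr
  rw [Int.even_iff, Int.even_iff]
  omega

theorem walks_eq (n : ℕ) : walks n = TH966.AK.wks TH966.AK.Hex.A n := by
  ext f
  unfold walks TH966.AK.wks
  simp only [Set.mem_ofPred_eq]
  constructor
  · rintro ⟨h1, h2, h3⟩
    exact ⟨h1, h2, fun i => (nbr_iff _ _).1 (h3 i)⟩
  · rintro ⟨h1, h2, h3⟩
    exact ⟨h1, h2, fun i => (nbr_iff _ _).2 (h3 i)⟩

theorem c_eq (n : ℕ) : (c n : ℝ) = Pool.Agent.R956.X2.cc n := by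
  unfold c Pool.Agent.R956.X2.cc
  rw [walks_eq, TH966.AK.card_wks TH966.AK.Hex.rule]

theorem μ_eq : μ = √Pool.Agent.R956.X2.mu2 := rfl

theorem sq_pos (p : ℤ × ℤ) : ‖pos p‖ ^ 2 = (TH966.AK.q4 p : ℝ) / 4 := by
  rw [Complex.sq_norm]
  unfold pos TH966.AK.q4
  rw [Complex.normSq_mk]
  have h : √3 * √3 = (3 : ℝ) := Real.mul_self_sqrt (by norm_num)
  push_cast
  have e : √3 / 2 * (p.1 : ℝ) * (√3 / 2 * (p.1 : ℝ)) = √3 * √3 * (p.1 : ℝ) ^ 2 / 4 := by ring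
  rw [e, h]
  ring

theorem D_eq (n : ℕ) : D n = TH966.AK.D4 n / 4 := by
  unfold D c
  rw [TH966.AK.D4_eq, walks_eq]
  have h : ∑ᶠ ω ∈ TH966.AK.wks TH966.AK.Hex.A n, ‖pos (ω (Fin.last n))‖ ^ 2 =
      (1 / 4 : ℝ) * ∑ᶠ ω ∈ TH966.AK.wks TH966.AK.Hex.A n,
        (TH966.AK.q4 (ω (Fin.last n)) : ℝ) := by
    have e1 := TH966.AK.sum_wks TH966.AK.Hex.rule (fun p => ‖pos p‖ ^ 2) n
    have e2 := TH966.AK.sum_wks TH966.AK.Hex.rule (fun p => (TH966.AK.q4 p : ℝ)) n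
    rw [e1, e2]
    unfold TH966.AK.WF
    rw [Finset.mul_sum]
    refine Finset.sum_congr rfl fun w _ => ?_
    change ‖pos (TH966.AK.lst w)‖ ^ 2 = 1 / 4 * (TH966.AK.q4 (TH966.AK.lst w) : ℝ)
    rw [sq_pos]
    ring
  rw [h]
  ring

open Pool.Agent.R956 in
/-- general facts for a sequence with the two estimates -/
theorem sparse {u : ℕ → ℝ} (hu : ∀ n, 2 ≤ n → 0 < u n)
    (hr : ∃ K : ℝ, 0 ≤ K ∧ ∀ n, 2 ≤ n → |u (n + 2) / u n - 1| ≤ K * D2.f n) {L : ℝ} (hL : 1 ≤ L)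
    (hone : ∀ ε : ℝ, 0 < ε → ∀ᶠ n in atTop,
      u (n + 1) ≤ (L + ε) * u n ∧ u n ≤ (L + ε) * u (n + 1)) {s : ℕ → ℕ}
    (hs : Tendsto s atTop atTop) :
    (Tendsto (fun k => ((s (k + 1) : ℝ) - s k) / √(s k)) atTop (𝓝 0) → ∀ θ : ℝ,
      Tendsto (fun k => Real.log (u (s k)) / Real.log (s k)) atTop (𝓝 θ) →
      Tendsto (fun n : ℕ => Real.log (u n) / Real.log n) atTop (𝓝 θ)) ∧
    (Tendsto (fun k => ((s (k + 1) : ℝ) - s k) * (Real.log (s k) / √(s k))) atTop (𝓝 0) →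
      ∀ θ A : ℝ, 0 < A → Tendsto (fun k => u (s k) / (s k : ℝ) ^ θ) atTop (𝓝 A) →
      ∀ ε : ℝ, 0 < ε → ∀ᶠ n : ℕ in atTop,
        A / (L + ε) ≤ u n / (n : ℝ) ^ θ ∧ u n / (n : ℝ) ^ θ ≤ (L + ε) * A) := by
  obtain ⟨K, hK0, hK⟩ := hr
  exact ⟨fun hgap θ h => D2.exponent hu hK0 hK (by linarith : (1 : ℝ) ≤ L + 1) (hone 1 one_pos) hs
    hgap h, fun hgap θ A hA h ε hε => D2.amplitude hu hK0 hK hL hone hs hgap hA h hε⟩

/-- **Theorem.** On the honeycomb lattice let `c n` be the number of `n`-step self-avoiding walks,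
`D n` their mean-square displacement and `μ = √(2+√2)`, so that `2/μ < 1.083` and `4/μ² < 1.172`.
(1) For every `ε > 0` and all large `n`: `c (n+1) / (μ c n)` is between `1 / (2/μ + ε)` and `2/μ + ε`,
and `D (n+1) / D n` is between `1 / (4/μ² + ε)` and `4/μ² + ε`.
(2) Let `s_k → ∞` be integers of any parities with `(s_{k+1} - s_k) / √(s_k) → 0`. If
`log (c n μ^(-n)) / log n` converges to `θ` along `n = s_k`, then along all `n`; if `log (D n) / log n`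
converges to `θ` along `n = s_k`, then along all `n`.
(3) Let `s_k → ∞` be integers of any parities with `(s_{k+1} - s_k) log s_k / √(s_k) → 0`, let `A > 0`,
`θ` real and `ε > 0`. If `c n / (n^θ μ^n) → A` along `n = s_k`, then this quotient is between
`A / (2/μ + ε)` and `(2/μ + ε) A` for all large `n` of both parities; if `D n / n^θ → A` along
`n = s_k`, then this quotient is between `A / (4/μ² + ε)` and `(4/μ² + ε) A` for all large `n`. -/
theorem result : 2 / μ < 1.083 ∧ 4 / μ ^ 2 < 1.172 ∧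
    (∀ ε : ℝ, 0 < ε → ∀ᶠ n : ℕ in atTop,
      (1 / (2 / μ + ε) ≤ (c (n + 1) : ℝ) / (μ * c n) ∧
        (c (n + 1) : ℝ) / (μ * c n) ≤ 2 / μ + ε) ∧
      0 < D n ∧ 1 / (4 / μ ^ 2 + ε) ≤ D (n + 1) / D n ∧ D (n + 1) / D n ≤ 4 / μ ^ 2 + ε) ∧
    ∀ s : ℕ → ℕ, Tendsto s atTop atTop →
      (Tendsto (fun k => ((s (k + 1) : ℝ) - s k) / √(s k)) atTop (𝓝 0) → ∀ θ : ℝ,
        (Tendsto (fun k => Real.log ((c (s k) : ℝ) / μ ^ s k) / Real.log (s k)) atTop (𝓝 θ) →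
          Tendsto (fun n : ℕ => Real.log ((c n : ℝ) / μ ^ n) / Real.log n) atTop (𝓝 θ)) ∧
        (Tendsto (fun k => Real.log (D (s k)) / Real.log (s k)) atTop (𝓝 θ) →
          Tendsto (fun n : ℕ => Real.log (D n) / Real.log n) atTop (𝓝 θ))) ∧
      (Tendsto (fun k => ((s (k + 1) : ℝ) - s k) * (Real.log (s k) / √(s k))) atTop (𝓝 0) →
        ∀ θ A : ℝ, 0 < A →
        (Tendsto (fun k => (c (s k) : ℝ) / μ ^ s k / (s k : ℝ) ^ θ) atTop (𝓝 A) →
          ∀ ε : ℝ, 0 < ε → ∀ᶠ n : ℕ in atTop,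
            A / (2 / μ + ε) ≤ (c n : ℝ) / μ ^ n / (n : ℝ) ^ θ ∧
              (c n : ℝ) / μ ^ n / (n : ℝ) ^ θ ≤ (2 / μ + ε) * A) ∧
        (Tendsto (fun k => D (s k) / (s k : ℝ) ^ θ) atTop (𝓝 A) →
          ∀ ε : ℝ, 0 < ε → ∀ᶠ n : ℕ in atTop,
            A / (4 / μ ^ 2 + ε) ≤ D n / (n : ℝ) ^ θ ∧
              D n / (n : ℝ) ^ θ ≤ (4 / μ ^ 2 + ε) * A)) := by
  have h2 : (1.414 : ℝ) < √2 := Real.lt_sqrt_of_sq_lt (by norm_num)
  have h2' : √2 < (1.415 : ℝ) := (Real.sqrt_lt' (by norm_num)).mpr (by norm_num)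
  have hμ0 : 0 < μ := by unfold μ; positivity
  have hμ2 : μ ^ 2 = 2 + √2 := Real.sq_sqrt (by positivity)
  have hm2 : Pool.Agent.R956.X2.mu2 = μ ^ 2 := by rw [hμ2]; rfl
  have hμa : (1.847 : ℝ) < μ := by
    unfold μ
    apply Real.lt_sqrt_of_sq_lt
    nlinarith
  have hμb : μ < 2 := by
    unfold μ
    rw [Real.sqrt_lt' (by norm_num)]
    linarith
  -- the two sequences
  have hru : ∀ n, Pool.Agent.R956.X2.r n = (c n : ℝ) / μ ^ n := by
    intro n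
    unfold Pool.Agent.R956.X2.r
    rw [c_eq, μ_eq]
  have hrone : ∀ ε : ℝ, 0 < ε → ∀ᶠ n in atTop,
      Pool.Agent.R956.X2.r (n + 1) ≤ (2 / μ + ε) * Pool.Agent.R956.X2.r n ∧
        Pool.Agent.R956.X2.r n ≤ (2 / μ + ε) * Pool.Agent.R956.X2.r (n + 1) :=
    fun ε hε => Pool.Agent.R956.X2.r_bounds hε
  have hDrate : ∃ K : ℝ, 0 ≤ K ∧ ∀ n, 2 ≤ n →
      |D (n + 2) / D n - 1| ≤ K * Pool.Agent.R956.D2.f n := by
    obtain ⟨K, hK0, hK⟩ := Pool.Agent.R956.X2.D4_rate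
    refine ⟨K, hK0, fun n hn => ?_⟩
    rw [D_eq, D_eq, div_div_div_cancel_right₀ (by norm_num)]
    exact hK n hn
  have hDpos : ∀ n, 2 ≤ n → 0 < D n := by
    intro n hn
    have := Pool.Agent.R956.X2.D4_pos hn
    rw [D_eq]
    linarith
  have hDone : ∀ ε : ℝ, 0 < ε → ∀ᶠ n in atTop,
      D (n + 1) ≤ (4 / μ ^ 2 + ε) * D n ∧ D n ≤ (4 / μ ^ 2 + ε) * D (n + 1) := by
    intro ε hε
    filter_upwards [Pool.Agent.R956.X2.D4_bounds hε] with n hn
    rw [hm2] at hn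
    rw [D_eq, D_eq]
    constructor <;> linarith [hn.1, hn.2]
  refine ⟨?_, ?_, fun ε hε => ?_, fun s hs => ?_⟩
  · rw [div_lt_iff₀ hμ0]
    linarith
  · rw [hμ2, div_lt_iff₀ (by positivity)]
    linarith
  · filter_upwards [hrone ε hε, hDone ε hε, eventually_ge_atTop 2] with n g1 g2 hn
    have p0 := Pool.Agent.R956.X2.r_pos n
    have p1 := Pool.Agent.R956.X2.r_pos (n + 1)
    have q0 := hDpos n hn
    have q1 := hDpos (n + 1) (by omega)
    have k1 : 0 < 2 / μ + ε := by positivity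
    have k2 : 0 < 4 / μ ^ 2 + ε := by positivity
    have e : (c (n + 1) : ℝ) / (μ * c n) =
        Pool.Agent.R956.X2.r (n + 1) / Pool.Agent.R956.X2.r n := by
      have : (c n : ℝ) ≠ 0 := by rw [c_eq]; exact (Pool.Agent.R956.X2.cc_pos n).ne'
      rw [hru, hru, pow_succ]
      field_simp
    rw [e]
    refine ⟨⟨?_, ?_⟩, q0, ?_, ?_⟩
    · rw [div_le_div_iff₀ k1 p0, one_mul, mul_comm]
      exact g1.2
    · rw [div_le_iff₀ p0]
      exact g1.1
    · rw [div_le_div_iff₀ k2 q0, one_mul, mul_comm]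
      exact g2.2
    · rw [div_le_iff₀ q0]
      exact g2.1
  · obtain ⟨a1, a2⟩ := sparse (u := Pool.Agent.R956.X2.r)
      (fun n _ => Pool.Agent.R956.X2.r_pos n) Pool.Agent.R956.X2.r_rate
      (L := 2 / μ) (by rw [le_div_iff₀ hμ0]; linarith) hrone hs
    obtain ⟨b1, b2⟩ := sparse (u := D) hDpos hDrate
      (L := 4 / μ ^ 2) (by rw [hμ2, le_div_iff₀ (by positivity)]; linarith) hDone hs
    simp only [hru] at a1 a2
    exact ⟨fun hgap θ => ⟨a1 hgap θ, b1 hgap θ⟩, fun hgap θ A hA => ⟨a2 hgap θ A hA, b2 hgap θ A hA⟩⟩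

end Pool.Agent.Results.MP_b440f6_pr.BothParities
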