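import Pool.Agent.H726.GB.HexG

/-!
Self-avoiding walks on the honeycomb lattice.  For two finite self-avoiding paths `U`, `U'` with the
same end points let `N_{U→U'}(ω)` be the number of places where `U` can be replaced by `U'` in the
walk `ω`.  Then, with `μ = √(2 + √2)`, `μ^|U| N_{U→U'}(ω) - μ^|U'| N_{U'→U}(ω)` is of order at most
`√n log n`, with Gaussian tails, in the uniform `n`-step walk.
-/

set_option autoImplicit false

namespace Pool.Agent.Results.MP_b440f6_pr.LocalBalance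

/-- adjacency of the honeycomb lattice in its brick-wall drawing: all horizontal edges of `ℤ²` and
the vertical edges `(x, y) - (x, y+1)` with `x + y` even -/
def Adj (p q : ℤ × ℤ) : Prop :=
  q - p = (1, 0) ∨ q - p = (-1, 0) ∨
    (q - p = (0, 1) ∧ Even (p.1 + p.2)) ∨ (q - p = (0, -1) ∧ Even (q.1 + q.2))

/-- `ω` is an `n`-step self-avoiding walk on the honeycomb lattice started at the origin -/
def IsSAW (n : ℕ) (ω : Fin (n + 1) → ℤ × ℤ) : Prop :=
  ω 0 = 0 ∧ Function.Injective ω ∧ ∀ i : Fin n, Adj (ω i.castSucc) (ω i.succ)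

/-- `c_n`: the number of `n`-step self-avoiding walks -/
noncomputable def c (n : ℕ) : ℕ := Nat.card {ω : Fin (n + 1) → ℤ × ℤ // IsSAW n ω}

/-- `U` is a finite self-avoiding path (with any starting point), given by the list of its
vertices. -/
def IsPath (U : List (ℤ × ℤ)) : Prop := U ≠ [] ∧ U.Nodup ∧ U.IsChain Adj

/-- `N U U' ω`: the number of translations `x` of the honeycomb lattice (`x₁ + x₂` even) such that
the path `x + U` is a block of consecutive vertices of `ω`, and the vertices of `x + U'` which are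
not on `x + U` are not visited by `ω`; for two paths with the same end points this is the number of
places where `U` can be replaced by `U'` in `ω`. -/
noncomputable def N (U U' : List (ℤ × ℤ)) {n : ℕ} (ω : Fin (n + 1) → ℤ × ℤ) : ℕ :=
  Set.ncard {x : ℤ × ℤ | Even (x.1 + x.2) ∧ U.map (x + ·) <:+: List.ofFn ω ∧
    ∀ y ∈ U', y ∉ U → ∀ k, ω k ≠ x + y}

theorem pr {U U' : List (ℤ × ℤ)} (hU : IsPath U) (hU' : IsPath U') (h1 : U.head? = U'.head?)
    (h2 : U.getLast? = U'.getLast?) : H726.GB.Pr TH966.AK.Hex.A U U' :=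
  ⟨hU.1, hU'.1, h1, h2, hU.2.1, hU'.2.1, hU.2.2, hU'.2.2⟩

theorem c_ncard (n : ℕ) : c n = Set.ncard {f : Fin (n + 1) → ℤ × ℤ |
    f 0 = 0 ∧ Function.Injective f ∧
      ∀ i : Fin n, TH966.AK.Hex.A (f i.castSucc) (f i.succ)} := by
  unfold c
  rw [← Nat.card_coe_set_eq]
  rfl

/-- **Theorem.** Let `μ = √(2 + √2)`. There is a constant `K` such that for all self-avoiding paths
`U`, `U'` on the honeycomb lattice with the same first vertex and the same last vertex:
(a) if `|U'| = |U| + s`, then the sum of `N_{U→U'}(ω)` over the `n`-step walks equals the sum of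
`N_{U'→U}(ω)` over the `(n+s)`-step walks;
(b) there is `c₀ > 0` such that for the uniform `n`-step self-avoiding walk, all `n ≥ 2`, `t ≥ 0`,
`P_n (|μ^|U| N_{U→U'} - μ^|U'| N_{U'→U}| ≥ t) ≤ exp (K (log n)^2 - c₀ t^2 / n)`. -/
theorem result (μ : ℝ) (hμ : μ = Real.sqrt (2 + Real.sqrt 2)) : ∃ K : ℝ,
    ∀ U U' : List (ℤ × ℤ), IsPath U → IsPath U' → U.head? = U'.head? →
      U.getLast? = U'.getLast? →
      (∀ n s : ℕ, U'.length = U.length + s →
        ∑ᶠ ω ∈ {ω : Fin (n + 1) → ℤ × ℤ | IsSAW n ω}, (N U U' ω : ℝ) =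
          ∑ᶠ ω ∈ {ω : Fin (n + s + 1) → ℤ × ℤ | IsSAW (n + s) ω}, (N U' U ω : ℝ)) ∧
      ∃ c₀ : ℝ, 0 < c₀ ∧ ∀ n : ℕ, 2 ≤ n → ∀ t : ℝ, 0 ≤ t →
        (Nat.card {ω : Fin (n + 1) → ℤ × ℤ // IsSAW n ω ∧
          t ≤ |μ ^ U.length * N U U' ω - μ ^ U'.length * N U' U ω|} : ℝ) ≤
          Real.exp (K * Real.log n ^ 2 - c₀ * t ^ 2 / n) * c n := by
  obtain ⟨h1, K1, hK1, h2⟩ := H726.GB.hex_facts c c_ncard
  have hmu1 : 1 ≤ Real.sqrt (2 + Real.sqrt 2) := by
    rw [Real.one_le_sqrt]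
    have := Real.sqrt_nonneg 2
    linarith
  rw [← hμ] at h1 h2 hmu1
  obtain ⟨K2, hK2⟩ := H726.GB.conc_fn H726.GB.hex_lat hmu1 hK1 c c_ncard h1 h2
  refine ⟨K2, ?_⟩
  intro U U' hU hU' hh hl
  refine ⟨fun n s hs => ?_, ?_⟩
  · have h4 := H726.GB.ident H726.GB.hex_lat U U' (pr hU hU' hh hl) n s hs
    rw [H726.GB.fin_sum H726.GB.hex_lat, H726.GB.fin_sum H726.GB.hex_lat] at h4
    simp only [H726.GB.NL_ofFn] at h4
    exact h4
  · obtain ⟨c₀, hc, h4⟩ := hK2 U U' (pr hU hU' hh hl)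
    refine ⟨c₀, hc, fun n hn t ht => ?_⟩
    have h5 := h4 n hn t ht
    rw [← Nat.card_coe_set_eq] at h5
    have e : c₀ * (t ^ 2 / (n : ℝ)) = c₀ * t ^ 2 / n := by ring
    rw [e] at h5
    exact h5

end Pool.Agent.Results.MP_b440f6_pr.LocalBalance
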