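import Pool.Agent.R644.SP.Fin
import Pool.Agent.R644.SP.Mm

/-!
Uniform self-avoiding walks on the honeycomb lattice (brick-wall coordinates, same description as in
the frozen statement): the moments of the displacements over `m` steps, at all mesoscopic scales `m`.
-/

set_option autoImplicit false

namespace Pool.Agent.Results.MP_b440f6_pr.MesoscopicMoments

/-- Adjacency in the honeycomb lattice (brick-wall model), as in the frozen statement. -/
def Nbr (p q : ℤ × ℤ) : Prop :=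
  (p.2 = q.2 ∧ (p.1 - q.1 = 1 ∨ q.1 - p.1 = 1)) ∨
    (p.1 = q.1 ∧ ((q.2 = p.2 + 1 ∧ Even (p.1 + p.2)) ∨ (p.2 = q.2 + 1 ∧ Even (q.1 + q.2))))

/-- The set of `n`-step self-avoiding walks from the origin. -/
def walks (n : ℕ) : Set (Fin (n + 1) → ℤ × ℤ) :=
  {ω | ω 0 = (0, 0) ∧ Function.Injective ω ∧ ∀ i : Fin n, Nbr (ω i.castSucc) (ω i.succ)}

/-- The vertex of the regular honeycomb lattice with edge length `1` in the plane, the origin at `0`,
which has the brick-wall coordinates `p`. -/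
noncomputable def pos (p : ℤ × ℤ) : ℂ :=
  ⟨√3 / 2 * p.1, (3 * p.2 - ((p.1 + p.2) % 2 : ℤ)) / 2⟩

/-- The probability that the uniform `n`-step self-avoiding walk has property `A`. -/
noncomputable def prob (n : ℕ) (A : (Fin (n + 1) → ℤ × ℤ) → Prop) : ℝ :=
  ({ω ∈ walks n | A ω}.ncard : ℝ) / ((walks n).ncard : ℝ)

/-- The mean of `F` for the uniform `n`-step self-avoiding walk. -/
noncomputable def mean (n : ℕ) (F : (Fin (n + 1) → ℤ × ℤ) → ℝ) : ℝ :=
  (∑ᶠ ω ∈ walks n, F ω) / ((walks n).ncard : ℝ)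

/-- The sum over the times `j = 0, …, n - m` of the powers `|ω (j + m) - ω j| ^ s` of the
displacements of the `n`-step walk over `m` steps (`Fin.ofNat (n + 1) i` is `i` for `i ≤ n`). -/
noncomputable def disp (s : ℝ) (m n : ℕ) (ω : Fin (n + 1) → ℤ × ℤ) : ℝ :=
  ∑ j ∈ Finset.range (n + 1 - m), ‖pos (ω (Fin.ofNat (n + 1) (j + m))) -
    pos (ω (Fin.ofNat (n + 1) j))‖ ^ s

theorem pos_eq : pos = H978R2.Hex.pos := by
  funext p
  unfold pos H978R2.Hex.pos H978R2.Hex.ht
  push_cast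
  rfl

theorem nbr_iff (p q : ℤ × ℤ) : Nbr p q ↔ H978R2.Hex.Adj p q := by
  obtain ⟨a, b⟩ := p
  obtain ⟨x, y⟩ := q
  unfold Nbr H978R2.Hex.Adj
  simp only [Prod.mk_sub_mk, Prod.mk.injEq]
  constructor
  · rintro (⟨h1, h2 | h2⟩ | ⟨h1, ⟨h2, h3⟩ | ⟨h2, h3⟩⟩)
    · right; left; omega
    · left; omega
    · right; right; left; exact ⟨by omega, h3⟩
    · right; right; right; exact ⟨by omega, h3⟩
  · rintro (h | h | ⟨h, h'⟩ | ⟨h, h'⟩)
    · left; omega
    · left; omega
    · right; exact ⟨by omega, Or.inl ⟨by omega, h'⟩⟩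
    · right; exact ⟨by omega, Or.inr ⟨by omega, h'⟩⟩

theorem walks_eq (n : ℕ) : walks n = H978R2.Hex.saws n := by
  ext f
  unfold walks H978R2.Hex.saws
  simp only [Set.mem_ofPred_eq]
  constructor
  · rintro ⟨h1, h2, h3⟩
    exact ⟨h1, h2, fun i => (nbr_iff _ _).1 (h3 i)⟩
  · rintro ⟨h1, h2, h3⟩
    exact ⟨h1, h2, fun i => (nbr_iff _ _).2 (h3 i)⟩

/-- **Theorem.** For every `s > 0` there are `c > 0` and `C ≥ 1` such that for all `m ≥ C` and all
`n` the uniform `n`-step self-avoiding walk `ω` on the honeycomb lattice (unit edges) satisfies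
`∑_j |ω (j + m) - ω j| ^ s ≤ 2 n m ^ (s (1 - c / log log m))`
except with probability at most `exp (C (log m)^2 - n / m)`, and, if `n ≥ C m (log m)^2`, the mean
of this sum (for `s = 2`: the mean-square displacement over `m` steps, summed over the pieces with
`m` steps) is at most `3 n m ^ (s (1 - c / log log m))`. -/
theorem result (s : ℝ) (hs : 0 < s) : ∃ c C : ℝ, 0 < c ∧ 1 ≤ C ∧ ∀ m n : ℕ, C ≤ m →
    prob n (fun ω => 2 * ((m : ℝ) ^ (1 - c / Real.log (Real.log m))) ^ s * n < disp s m n ω) ≤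
      Real.exp (C * Real.log m ^ 2 - n / m) ∧
    (C * (m * Real.log m ^ 2) ≤ n → mean n (disp s m n) ≤
      3 * ((m : ℝ) ^ (1 - c / Real.log (Real.log m))) ^ s * n) := by
  obtain ⟨c, C, hc, hC, h⟩ := Pool.Agent.R644.SP.unif_disp'
    Pool.Agent.R644.SP.s_cn Pool.Agent.Y981.QB.s_ld s hs
  refine ⟨c, C, hc, hC, fun m n hm => ?_⟩
  have e1 : disp s m n = Pool.Agent.R644.SP.ds s m n := by
    funext ω
    unfold disp Pool.Agent.R644.SP.ds
    rw [pos_eq]
  have e2 : ∀ A : (Fin (n + 1) → ℤ × ℤ) → Prop, prob n A = Pool.Agent.Y981.QB.prob n A := by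
    intro A
    unfold prob Pool.Agent.Y981.QB.prob
    rw [walks_eq]
  have e3 : ∀ F : (Fin (n + 1) → ℤ × ℤ) → ℝ, mean n F = Pool.Agent.Y981.QB.mean n F := by
    intro A
    unfold mean Pool.Agent.Y981.QB.mean
    rw [walks_eq]
  rw [e1, e2, e3]
  exact h m n hm

end Pool.Agent.Results.MP_b440f6_pr.MesoscopicMoments
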