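import Pool.Agent.R956.M4
import Pool.Agent.R956.K8
import Pool.Agent.R956.K9

/-!
Self-avoiding walk on the honeycomb lattice: the numbers of walks and the mean-square displacement at
almost all lengths. The numbers of walks and the mean-square displacement are locally geometric at most
lengths; power laws for the mean-square displacement along sparse sets of lengths, with gaps of order
`√n`, hold at almost all lengths, and at all lengths if the numbers of walks obey such laws too.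
-/

set_option autoImplicit false
set_option linter.unusedVariables false

open Filter Topology

namespace Pool.Agent.Results.MP_b440f6_pr.MostLengths

/-- Adjacency in the honeycomb lattice (brick-wall model), as in the frozen statement. -/
def Nbr (p q : ℤ × ℤ) : Prop :=
  (p.2 = q.2 ∧ (p.1 - q.1 = 1 ∨ q.1 - p.1 = 1)) ∨
    (p.1 = q.1 ∧ ((q.2 = p.2 + 1 ∧ Even (p.1 + p.2)) ∨ (p.2 = q.2 + 1 ∧ Even (q.1 + q.2))))

/-- The set of `n`-step self-avoiding walks from the origin. -/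
def walks (n : ℕ) : Set (Fin (n + 1) → ℤ × ℤ) :=
  {ω | ω 0 = (0, 0) ∧ Function.Injective ω ∧ ∀ i : Fin n, Nbr (ω i.castSucc) (ω i.succ)}

/-- The number of `n`-step self-avoiding walks from the origin. -/
noncomputable def c (n : ℕ) : ℕ := (walks n).ncard

/-- The connective constant. -/
noncomputable def μ : ℝ := √(2 + √2)

/-- The vertex of the regular honeycomb lattice with edge length `1` in the plane, the origin at `0`,
which has the brick-wall coordinates `p`. -/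
noncomputable def pos (p : ℤ × ℤ) : ℂ :=
  ⟨√3 / 2 * p.1, (3 * p.2 - ((p.1 + p.2) % 2 : ℤ)) / 2⟩

/-- The mean-square displacement of the `n`-step self-avoiding walk. -/
noncomputable def D (n : ℕ) : ℝ :=
  (∑ᶠ ω ∈ walks n, ‖pos (ω (Fin.last n))‖ ^ 2) / (c n : ℝ)

/-- the set of the numbers with property `P` has density zero -/
def Rare (P : ℕ → Prop) : Prop :=
  Tendsto (fun N : ℕ => ({n : ℕ | n < N ∧ P n}.ncard : ℝ) / N) atTop (𝓝 0)

/-- every interval `[n, n + δ √n]`, `n` large, meets `S`, for each `δ > 0` -/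
def Gaps (S : Set ℕ) : Prop :=
  ∀ δ : ℝ, 0 < δ → ∀ᶠ n : ℕ in atTop, ∃ m ∈ S, n ≤ m ∧ (m : ℝ) ≤ n + δ * Real.sqrt n

/-- the gaps of `S` are `o(√(n log n))` -/
def LogGaps (S : Set ℕ) : Prop :=
  ∀ δ : ℝ, 0 < δ → ∀ᶠ n : ℕ in atTop, ∃ m ∈ S, n ≤ m ∧
    (m : ℝ) ≤ n + δ * Real.sqrt (n * Real.log n)

/-- the second logarithmic differences of `M` along the parity classes have bounded sums over the
dyadic blocks -/
def BoundedBlocks (M : ℕ → ℝ) : Prop :=
  ∃ K : ℝ, 0 ≤ K ∧ ∀ᶠ N : ℕ in atTop, ∑ n ∈ Finset.Ico N (2 * N),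
    |Real.log (M (n + 4) * M n / M (n + 2) ^ 2)| ≤ K

/-- for every `η > 0` and large `N`, at all but `η N` of the numbers `n ∈ [N, 2N)` the quotients
`M (n + 2 j) / M n`, `2 j ≤ N`, are powers of `M (n + 2) / M n` up to a factor
`exp (± (K / η) j² / N)` -/
def LocallyGeometric (M : ℕ → ℝ) : Prop :=
  ∃ K : ℝ, 0 < K ∧ ∀ η : ℝ, 0 < η → ∀ᶠ N : ℕ in atTop,
    ({n : ℕ | N ≤ n ∧ n < 2 * N ∧ ∃ j : ℕ, 2 * j ≤ N ∧ K / η * (j : ℝ) ^ 2 / N <
      |Real.log (M (n + 2 * j) / M n) - j * Real.log (M (n + 2) / M n)|}.ncard : ℝ) ≤ η * N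

/-- exponents of `M` along sparse sets of lengths -/
def SparseExponent (M : ℕ → ℝ) : Prop :=
  ∀ (S : Set ℕ) (θ : ℝ), LogGaps S →
    Tendsto (fun n : ℕ => Real.log (M n) / Real.log n) (atTop ⊓ 𝓟 S) (𝓝 θ) →
    ∀ ε : ℝ, 0 < ε → Rare (fun n => ε < |Real.log (M n) / Real.log n - θ|)

/-- asymptotic forms of `M` along sparse sets of lengths of one parity -/
def SparseForm (M : ℕ → ℝ) : Prop :=
  ∀ (q : ℕ) (S : Set ℕ) (θ A : ℝ), q ≤ 1 → (∀ m ∈ S, m % 2 = q) → Gaps S → 0 < A →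
    Tendsto (fun n : ℕ => M n / (n : ℝ) ^ θ) (atTop ⊓ 𝓟 S) (𝓝 A) →
    ∀ ε : ℝ, 0 < ε → Rare (fun n => n % 2 = q ∧ ε < |M n / (n : ℝ) ^ θ - A|)

open Pool.Agent.R956 Pool.Agent.R956.K6 Pool.Agent.R956.M4

theorem nbr_iff (p q : ℤ × ℤ) : Nbr p q ↔ TH966.AK.Hex.A p q := by
  rw [TH966.AK.Hex.A_iff]
  unfold Nbr
  rw [Int.even_iff, Int.even_iff]
  omega

theorem walks_eq (n : ℕ) : walks n = TH966.AK.wks TH966.AK.Hex.A n := by
  ext f
  unfold walks TH966.AK.wks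
  simp only [Set.mem_ofPred_eq]
  constructor
  · rintro ⟨h1, h2, h3⟩
    exact ⟨h1, h2, fun i => (nbr_iff _ _).1 (h3 i)⟩
  · rintro ⟨h1, h2, h3⟩
    exact ⟨h1, h2, fun i => (nbr_iff _ _).2 (h3 i)⟩

theorem c_eq (n : ℕ) : (c n : ℝ) = Pool.Agent.R956.X2.cc n := by
  unfold c Pool.Agent.R956.X2.cc
  rw [walks_eq, TH966.AK.card_wks TH966.AK.Hex.rule]

theorem μ_eq : μ = √Pool.Agent.R956.X2.mu2 := rfl

theorem sq_pos (p : ℤ × ℤ) : ‖pos p‖ ^ 2 = (TH966.AK.q4 p : ℝ) / 4 := by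
  rw [Complex.sq_norm]
  unfold pos TH966.AK.q4
  rw [Complex.normSq_mk]
  have h : √3 * √3 = (3 : ℝ) := Real.mul_self_sqrt (by norm_num)
  push_cast
  have e : √3 / 2 * (p.1 : ℝ) * (√3 / 2 * (p.1 : ℝ)) = √3 * √3 * (p.1 : ℝ) ^ 2 / 4 := by ring
  rw [e, h]
  ring

theorem D_eq (n : ℕ) : D n = TH966.AK.D4 n / 4 := by
  unfold D c
  rw [TH966.AK.D4_eq, walks_eq]
  have h : ∑ᶠ ω ∈ TH966.AK.wks TH966.AK.Hex.A n, ‖pos (ω (Fin.last n))‖ ^ 2 =
      (1 / 4 : ℝ) * ∑ᶠ ω ∈ TH966.AK.wks TH966.AK.Hex.A n,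
        (TH966.AK.q4 (ω (Fin.last n)) : ℝ) := by
    have e1 := TH966.AK.sum_wks TH966.AK.Hex.rule (fun p => ‖pos p‖ ^ 2) n
    have e2 := TH966.AK.sum_wks TH966.AK.Hex.rule (fun p => (TH966.AK.q4 p : ℝ)) n
    rw [e1, e2]
    unfold TH966.AK.WF
    rw [Finset.mul_sum]
    refine Finset.sum_congr rfl fun w _ => ?_
    change ‖pos (TH966.AK.lst w)‖ ^ 2 = 1 / 4 * (TH966.AK.q4 (TH966.AK.lst w) : ℝ)
    rw [sq_pos]
    ring
  rw [h]
  ring

lemma bv_const {F : ℕ → ℝ} (hF : Bv F) (a : ℝ) : Bv (fun k => a + F k) := by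
  obtain ⟨C, hC, h⟩ := hF
  refine ⟨C, hC, ?_⟩
  filter_upwards [h] with N hN
  refine le_trans (le_of_eq (Finset.sum_congr rfl fun k _ => ?_)) hN
  unfold dd
  congr 1
  ring

/-- the four statements for one sequence -/
theorem four {M : ℕ → ℝ} (hpos : ∀ᶠ n : ℕ in atTop, 0 < M n)
    (hbv : ∀ s : ℕ, s ≤ 1 → Bv (fun k => Real.log (M (2 * k + s)))) {B0 : ℝ}
    (hst : ∀ᶠ n : ℕ in atTop, |Real.log (M (n + 1)) - Real.log (M n)| ≤ B0) :
    BoundedBlocks M ∧ LocallyGeometric M ∧ SparseExponent M ∧ SparseForm M :=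
  ⟨K9.tv hpos hbv, K7.lin hpos hbv, fun S θ hS h ε hε => K7.expo hbv hst hS h hε,
    fun q S θ A hq hpar hS hA h ε hε => K7.form hpos hq (hbv q hq) hpar hS hA h hε⟩

/-- transfer to a constant multiple -/
lemma mult {M M' : ℕ → ℝ} {a : ℝ} (ha : 0 < a) (hpos : ∀ᶠ n : ℕ in atTop, 0 < M' n)
    (h : ∀ n, M n = a * M' n)
    (hbv : ∀ s : ℕ, s ≤ 1 → Bv (fun k => Real.log (M' (2 * k + s)))) {B0 : ℝ}
    (hst : ∀ᶠ n : ℕ in atTop, |Real.log (M' (n + 1)) - Real.log (M' n)| ≤ B0) :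
    (∀ᶠ n : ℕ in atTop, 0 < M n) ∧ (∀ s : ℕ, s ≤ 1 → Bv (fun k => Real.log (M (2 * k + s)))) ∧
    ∀ᶠ n : ℕ in atTop, |Real.log (M (n + 1)) - Real.log (M n)| ≤ B0 := by
  have hlog : ∀ᶠ n : ℕ in atTop, Real.log (M n) = Real.log a + Real.log (M' n) := by
    filter_upwards [hpos] with n hn
    rw [h, Real.log_mul ha.ne' hn.ne']
  refine ⟨?_, fun s hs => ?_, ?_⟩
  · filter_upwards [hpos] with n hn
    rw [h]
    exact mul_pos ha hn
  · refine K8.bvc (bv_const (hbv s hs) (Real.log a)) ?_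
    filter_upwards [(K8.tl s).eventually hlog] with k hk
    rw [hk]
  · filter_upwards [hlog, (tendsto_add_atTop_nat 1).eventually hlog, hst] with n h1 h2 h3
    rw [h1, h2]
    rwa [show Real.log a + Real.log (M' (n + 1)) - (Real.log a + Real.log (M' n)) =
      Real.log (M' (n + 1)) - Real.log (M' n) by ring]

/-- **Theorem.** On the honeycomb lattice let `c_n` be the number of `n`-step self-avoiding walks,
`μ = √(2 + √2)` and `D_n` the mean-square displacement. Let `M_n = c_n` or `M_n = D_n`.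
(1) There is `K` such that `∑_{N ≤ n < 2N} |log (M_{n+4} M_n / M_{n+2}²)| ≤ K` for all large `N`.
(2) There is `K` such that for every `η > 0` and all large `N`, all but at most `η N` of the
`n ∈ [N, 2N)` satisfy `|log (M_{n+2j} / M_n) - j log (M_{n+2} / M_n)| ≤ (K / η) j² / N` for all `j`
with `2 j ≤ N`.
(3) If `log D_n / log n → θ` along a set of lengths with gaps `o(√(n log n))`, then for every `ε > 0`
`|log D_n / log n - θ| ≤ ε` outside a set of lengths of density zero.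
(4) If `S` consists of numbers of one parity `q`, has gaps `o(√n)`, and `D_n / n^θ → A > 0` along `S`,
then for every `ε > 0`, `|D_n / n^θ - A| ≤ ε` for all `n` of parity `q` outside a set of density zero.
(5) If moreover `c_n / (μ^n n^α) → B > 0` along `S`, then both limits hold along all `n` of parity `q`,
and `(D_{n+2} / D_n - 1) √n → 0` along them.
(6) If, in (3), `log (c_n / μ^n) / log n → α` along the set, then both limits hold along all `n`, and
`(D_{n+2} / D_n - 1) √(n / log n) → 0`. -/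
theorem result :
    (BoundedBlocks (fun n => (c n : ℝ)) ∧ LocallyGeometric (fun n => (c n : ℝ))) ∧
    (BoundedBlocks D ∧ LocallyGeometric D ∧ SparseExponent D ∧ SparseForm D) ∧
    (∀ (q : ℕ) (S : Set ℕ) (θ A α B : ℝ), q ≤ 1 → (∀ m ∈ S, m % 2 = q) → Gaps S →
      0 < A → 0 < B → Tendsto (fun n : ℕ => D n / (n : ℝ) ^ θ) (atTop ⊓ 𝓟 S) (𝓝 A) →
      Tendsto (fun n : ℕ => (c n : ℝ) / μ ^ n / (n : ℝ) ^ α) (atTop ⊓ 𝓟 S) (𝓝 B) →
      Tendsto (fun n : ℕ => D n / (n : ℝ) ^ θ) (atTop ⊓ 𝓟 {n | n % 2 = q}) (𝓝 A) ∧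
      Tendsto (fun n : ℕ => (c n : ℝ) / μ ^ n / (n : ℝ) ^ α) (atTop ⊓ 𝓟 {n | n % 2 = q}) (𝓝 B) ∧
      Tendsto (fun n : ℕ => (D (n + 2) / D n - 1) * Real.sqrt n)
        (atTop ⊓ 𝓟 {n | n % 2 = q}) (𝓝 0)) ∧
    (∀ (S : Set ℕ) (θ α : ℝ), LogGaps S →
      Tendsto (fun n : ℕ => Real.log (D n) / Real.log n) (atTop ⊓ 𝓟 S) (𝓝 θ) →
      Tendsto (fun n : ℕ => Real.log ((c n : ℝ) / μ ^ n) / Real.log n) (atTop ⊓ 𝓟 S) (𝓝 α) →
      Tendsto (fun n : ℕ => Real.log (D n) / Real.log n) atTop (𝓝 θ) ∧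
      Tendsto (fun n : ℕ => Real.log ((c n : ℝ) / μ ^ n) / Real.log n) atTop (𝓝 α) ∧
      Tendsto (fun n : ℕ => (D (n + 2) / D n - 1) * Real.sqrt (n / Real.log n)) atTop (𝓝 0)) := by
  have hD4 : ∀ᶠ n : ℕ in atTop, 0 < TH966.AK.D4 n := by
    filter_upwards [eventually_ge_atTop 2] with n hn
    exact X2.D4_pos hn
  have hD : ∀ n, D n = 1 / 4 * TH966.AK.D4 n := fun n => by rw [D_eq]; ring
  have h4 : (0 : ℝ) < 1 / 4 := by norm_num
  have hcc : (fun n => (c n : ℝ)) = X2.cc := funext c_eq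
  refine ⟨?_, ?_, ?_, ?_⟩
  · rw [hcc]
    have h1 : ∀ᶠ n : ℕ in atTop, 0 < X2.cc n := Eventually.of_forall X2.cc_pos
    have h2 : ∀ s : ℕ, s ≤ 1 → Bv (fun k => Real.log (X2.cc (2 * k + s))) :=
      fun s hs => K8.bv_c wkh hs
    exact ⟨K9.tv h1 h2, K7.lin h1 h2⟩
  · obtain ⟨B0, hst⟩ := K8.st_q wkh wkq D4_q
    obtain ⟨h1, h2, h3⟩ := mult h4 hD4 hD (fun s hs => K8.bv_q wkh wkq D4_q hs) hst
    exact four h1 h2 h3
  · intro q S θ A α B hq hpar hS hA hB h1 h2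
    simp only [c_eq, μ_eq] at h2 ⊢
    have h3 : Tendsto (fun n : ℕ => TH966.AK.D4 n / (n : ℝ) ^ θ) (atTop ⊓ 𝓟 S)
        (𝓝 (A / (1 / 4))) := by
      refine (h1.div_const (1 / 4 : ℝ)).congr fun n => ?_
      rw [hD]
      ring
    obtain ⟨g1, g2, g3⟩ := K8.joint_form wkh wkq D4_q hq hpar hS hB (div_pos hA h4) h2 h3
    refine ⟨?_, g1, g3.congr fun n => ?_⟩
    · have g4 := g2.const_mul (1 / 4 : ℝ)
      rw [mul_div_cancel₀ _ h4.ne'] at g4
      refine g4.congr fun n => ?_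
      rw [hD, mul_div_assoc]
    · rw [hD, hD, mul_div_mul_left _ _ h4.ne']
  · intro S θ α hS h1 h2
    simp only [c_eq, μ_eq] at h2 ⊢
    have hl : Tendsto (fun n : ℕ => Real.log (1 / 4) / Real.log n) atTop (𝓝 0) :=
      tendsto_const_nhds.div_atTop (Real.tendsto_log_atTop.comp tendsto_natCast_atTop_atTop)
    have hlog : ∀ᶠ n : ℕ in atTop, Real.log (D n) / Real.log n =
        Real.log (1 / 4) / Real.log n + Real.log (TH966.AK.D4 n) / Real.log n := by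
      filter_upwards [hD4] with n hn
      rw [hD, Real.log_mul h4.ne' hn.ne', add_div]
    have h3 : Tendsto (fun n : ℕ => Real.log (TH966.AK.D4 n) / Real.log n) (atTop ⊓ 𝓟 S)
        (𝓝 θ) := by
      have h4 := h1.sub (hl.mono_left (inf_le_left : atTop ⊓ 𝓟 S ≤ atTop))
      rw [sub_zero] at h4
      refine h4.congr' ?_
      filter_upwards [M1.ev_inf hlog] with n hn
      rw [hn]
      ring
    obtain ⟨g1, g2, g3⟩ := K8.joint_expo wkh wkq D4_q hS h2 h3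
    refine ⟨?_, g1, g3.congr fun n => ?_⟩
    · have g4 := hl.add g2
      rw [zero_add] at g4
      refine g4.congr' ?_
      filter_upwards [hlog] with n hn
      rw [hn]
    · rw [hD, hD, mul_div_mul_left _ _ h4.ne']

end Pool.Agent.Results.MP_b440f6_pr.MostLengths
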